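import Pool.Agent.Run7.h343.PV.Iface2
import Pool.Agent.Run7.h343.PV.Incf

/-!
# OFF1 (project PV of helper343)

Abel summation over a progression.
-/

set_option autoImplicit false

namespace Pool.Agent.Run7.h462.PV

open Finset Complex
open Pool.Agent.Run7.h343.PV Pool.Agent.Y766.R3

/-- the profile as a function on the line -/
noncomputable def gg (h : ℝ → ℝ) (t : ℝ) : ℝ := h (Real.log (max t 1)) / Real.sqrt (max t 1)

section profile

variable {h : ℝ → ℝ} {x X Λ : ℝ}

lemma gg_nat (n : ℕ) (hn : 1 ≤ n) : gg h n = h (Real.log n) / Real.sqrt n := by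
  unfold gg
  rw [max_eq_left (by exact_mod_cast hn)]

lemma gg_low (hx : 1 < x) (h1 : ∀ t, t ≤ Real.log x → h t = 0) {t : ℝ} (ht : t ≤ x) :
    gg h t = 0 := by
  unfold gg
  rw [h1 _ (Real.log_le_log (lt_max_of_lt_right one_pos) (max_le ht hx.le)), zero_div]

lemma gg_high (hX : 1 < X) (h2 : ∀ t, Real.log X ≤ t → h t = 0) {t : ℝ} (ht : X ≤ t) :
    gg h t = 0 := by
  unfold gg
  rw [h2 _ (Real.log_le_log (by linarith) (ht.trans (le_max_left _ _))), zero_div]

lemma gg_abs (hx : 1 < x) (h0 : ∀ t, |h t| ≤ 1) (h1 : ∀ t, t ≤ Real.log x → h t = 0) (t : ℝ) :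
    |gg h t| ≤ 1 / Real.sqrt x := by
  rcases le_or_gt t x with ht | ht
  · rw [gg_low hx h1 ht, abs_zero]
    positivity
  · unfold gg
    rw [max_eq_left (by linarith), abs_div, abs_of_nonneg (Real.sqrt_nonneg t)]
    have h2 : Real.sqrt x ≤ Real.sqrt t := Real.sqrt_le_sqrt ht.le
    have h3 : 0 < Real.sqrt x := Real.sqrt_pos.2 (by linarith)
    exact div_le_div₀ zero_le_one (h0 _) h3 h2

lemma gg_lip_aux (h0 : ∀ t, |h t| ≤ 1) (hΛ : 0 ≤ Λ) (hl : ∀ s t, |h s - h t| ≤ Λ * |s - t|)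
    (hx : 1 < x) {s t : ℝ} (hs : x ≤ s) (hst : s ≤ t) :
    |gg h t - gg h s| ≤ (1 + Λ) / (x * Real.sqrt x) * (t - s) := by
  have hx0 : 0 < x := by linarith
  have hs0 : 0 < s := by linarith
  have ht0 : 0 < t := by linarith
  unfold gg
  rw [max_eq_left (by linarith), max_eq_left (by linarith)]
  have hc0 : 0 < Real.sqrt x := Real.sqrt_pos.2 hx0
  have hca : Real.sqrt x ≤ Real.sqrt s := Real.sqrt_le_sqrt hs
  have hab : Real.sqrt s ≤ Real.sqrt t := Real.sqrt_le_sqrt hst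
  have ec : Real.sqrt x * Real.sqrt x = x := Real.mul_self_sqrt hx0.le
  have ea : Real.sqrt s * Real.sqrt s = s := Real.mul_self_sqrt hs0.le
  have eb : Real.sqrt t * Real.sqrt t = t := Real.mul_self_sqrt ht0.le
  set a := Real.sqrt s with ha
  set b := Real.sqrt t with hb
  set c := Real.sqrt x with hc
  have ha0 : 0 < a := by linarith
  have hb0 : 0 < b := by linarith
  set u := h (Real.log s) with hu
  set v := h (Real.log t) with hv
  have e : v / b - u / a = (v - u) / b - u * (1 / a - 1 / b) := by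
    field_simp
    ring
  have hts : 0 ≤ t - s := by linarith
  have k0 : Real.log t - Real.log s ≤ (t - s) / s := by
    rw [← Real.log_div ht0.ne' hs0.ne']
    have := Real.log_le_sub_one_of_pos (show 0 < t / s by positivity)
    have e2 : t / s - 1 = (t - s) / s := by
      field_simp
    linarith
  have k0' : 0 ≤ Real.log t - Real.log s := by
    have := Real.log_le_log hs0 hst
    linarith
  have k1 : |v - u| ≤ Λ * ((t - s) / s) := by
    refine (hl _ _).trans ?_
    rw [abs_of_nonneg k0']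
    exact mul_le_mul_of_nonneg_left k0 hΛ
  have k2 : 1 / a - 1 / b ≤ (t - s) / (x * c) := by
    have e3 : 1 / a - 1 / b = (b - a) / (a * b) := by
      field_simp
    have e4 : t - s = (b - a) * (b + a) := by
      rw [← ea, ← eb]; ring
    rw [e3, e4, div_le_div_iff₀ (by positivity) (by positivity)]
    have h5 : x * c ≤ (b + a) * (a * b) := by
      rw [← ec]
      have h6 : c * c ≤ a * b := mul_le_mul hca (hca.trans hab) hc0.le ha0.le
      have h7 : c ≤ b + a := by linarith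
      calc c * c * c ≤ (a * b) * (b + a) := mul_le_mul h6 h7 hc0.le (by positivity)
        _ = _ := by ring
    have h8 : 0 ≤ b - a := by linarith
    calc (b - a) * (x * c) ≤ (b - a) * ((b + a) * (a * b)) := mul_le_mul_of_nonneg_left h5 h8
      _ = _ := by ring
  have k2' : 0 ≤ 1 / a - 1 / b := by
    have := one_div_le_one_div_of_le ha0 hab
    linarith
  have k3 : |v - u| / b ≤ Λ * (t - s) / (x * c) := by
    calc |v - u| / b ≤ Λ * ((t - s) / s) / b := by gcongr
      _ = Λ * (t - s) / (s * b) := by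
        field_simp
      _ ≤ _ := by
        have h9 : x * c ≤ s * b := mul_le_mul hs (hca.trans hab) hc0.le hs0.le
        have h10 : 0 ≤ Λ * (t - s) := by positivity
        gcongr
  rw [e]
  calc |(v - u) / b - u * (1 / a - 1 / b)| ≤ |(v - u) / b| + |u * (1 / a - 1 / b)| := abs_sub _ _
    _ = |v - u| / b + |u| * (1 / a - 1 / b) := by
        rw [abs_div, abs_mul, abs_of_pos hb0, abs_of_nonneg k2']
    _ ≤ Λ * (t - s) / (x * c) + 1 * ((t - s) / (x * c)) := by
        refine add_le_add k3 (mul_le_mul (h0 _) k2 k2' zero_le_one)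
    _ = _ := by ring

lemma gg_lip (h0 : ∀ t, |h t| ≤ 1) (hΛ : 0 ≤ Λ) (hl : ∀ s t, |h s - h t| ≤ Λ * |s - t|)
    (hx : 1 < x) (h1 : ∀ t, t ≤ Real.log x → h t = 0) {s t : ℝ} (hst : s ≤ t) :
    |gg h t - gg h s| ≤ (1 + Λ) / (x * Real.sqrt x) * (t - s) := by
  have hx0 : 0 < x := by linarith
  rcases le_total x s with hs | hs
  · exact gg_lip_aux h0 hΛ hl hx hs hst
  · rcases le_total t x with ht | ht
    · rw [gg_low hx h1 ht, gg_low hx h1 hs, sub_zero, abs_zero]
      have : 0 ≤ t - s := by linarith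
      positivity
    · have h3 := gg_lip_aux h0 hΛ hl hx (le_refl x) ht
      rw [gg_low hx h1 (le_refl x)] at h3
      rw [gg_low hx h1 hs]
      refine h3.trans ?_
      have : t - x ≤ t - s := by linarith
      have h4 : 0 ≤ (1 + Λ) / (x * Real.sqrt x) := by positivity
      exact mul_le_mul_of_nonneg_left this h4

end profile

/-- the residue class -/
lemma exists_res {l₁ l₂ : ℕ} (h1 : 1 ≤ l₁) (hc : l₁.Coprime l₂) (D : ℤ) :
    ∃ (r : ℕ) (a : ℤ), r < l₁ ∧ (l₁ : ℤ) * a = l₂ * r + D := by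
  obtain ⟨u, v, huv⟩ : IsCoprime (l₁ : ℤ) (l₂ : ℤ) := Nat.isCoprime_iff_coprime.2 hc
  have hl : (0 : ℤ) < l₁ := by exact_mod_cast h1
  have h2 : 0 ≤ (-D * v) % l₁ := Int.emod_nonneg _ hl.ne'
  have h3 : (-D * v) % l₁ < l₁ := Int.emod_lt_of_pos _ hl
  obtain ⟨r, hr⟩ := Int.eq_ofNat_of_zero_le h2
  have h4 := Int.emod_add_mul_ediv (-D * v) l₁
  refine ⟨r, D * u - l₂ * ((-D * v) / l₁), ?_, ?_⟩
  · rw [hr] at h3
    exact_mod_cast h3
  · have h5 : (r : ℤ) = -D * v - l₁ * ((-D * v) / l₁) := by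
      rw [← hr]; linarith
    rw [h5]
    linear_combination D * huv

theorem t_OFF1 : S_OFF1 := by
  intro p ν m χ x X Λ Z h l₁ l₂ N H hp hp2 hm h3 hχ hx hxX hXN hΛ h0 hl h1 h2 hl₁ hl₂ hZ₁ hZ₂ hc
    hc₁ hc₂ hH hPH
  have hx0 : 0 < x := by linarith
  have hX1 : 1 < X := by linarith
  have hX0 : 0 < X := by linarith
  have hp0 : (0 : ℝ) < p := by exact_mod_cast hp.pos
  have hpZ : Prime (p : ℤ) := Nat.prime_iff_prime_int.1 hp
  have hl₁z : (0 : ℤ) < l₁ := by exact_mod_cast hl₁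
  set D : ℤ := (p : ℤ) ^ m * H with hD
  obtain ⟨r, a, hr, ha⟩ := exists_res hl₁ hc D
  set K : ℕ := ⌊X⌋₊ + 1 with hK
  have hXK : X < K := by
    rw [hK]; push_cast; exact Nat.lt_floor_add_one X
  have hK2 : (K : ℝ) ≤ 2 * X := by
    rw [hK]; push_cast
    have := Nat.floor_le hX0.le
    linarith
  -- the summand as a function of `n₂`
  set W : ℕ → ℂ := fun n => if (l₁ : ℤ) ∣ l₂ * n + D then
    FF χ D (l₂ * n) * ((gg h (((l₂ * n + D) / l₁ : ℤ) : ℝ) * gg h n : ℝ) : ℂ) else 0 with hW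
  have hW0 : ∀ n : ℕ, (n = 0 ∨ X ≤ n) → W n = 0 := by
    intro n hn
    have h5 : gg h (n : ℝ) = 0 := by
      rcases hn with hn | hn
      · refine gg_low hx h1 ?_
        rw [hn]; push_cast; exact hx0.le
      · exact gg_high hX1 h2 hn
    simp only [hW]
    rw [h5, mul_zero]
    simp
  -- first step
  have step1 : ∀ n₂ ∈ Icc 1 N, (∑ n₁ ∈ Icc 1 N, if (l₁ : ℤ) * n₁ - l₂ * n₂ = D then
      χ ((l₁ * n₁ : ℕ) : ZMod (p ^ ν)) * (starRingEnd ℂ) (χ ((l₂ * n₂ : ℕ) : ZMod (p ^ ν))) *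
        ((h (Real.log n₁) / Real.sqrt n₁ * (h (Real.log n₂) / Real.sqrt n₂) : ℝ) : ℂ) else 0) =
      W n₂ := by
    intro n₂ hn₂
    rw [mem_Icc] at hn₂
    by_cases hdiv : (l₁ : ℤ) ∣ l₂ * n₂ + D
    · obtain ⟨z, hz⟩ := hdiv
      have hz2 : (l₂ * n₂ + D) / (l₁ : ℤ) = z := by
        rw [hz, Int.mul_ediv_cancel_left _ hl₁z.ne']
      have hWz : W n₂ = FF χ D (l₂ * n₂) * ((gg h (z : ℝ) * gg h n₂ : ℝ) : ℂ) := by
        simp only [hW]
        rw [if_pos ⟨z, hz⟩, hz2]
      rw [hWz]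
      have hiff : ∀ n₁ : ℕ, (l₁ : ℤ) * n₁ - l₂ * n₂ = D ↔ (n₁ : ℤ) = z := by
        intro n₁
        constructor
        · intro h6
          have : (l₁ : ℤ) * n₁ = l₁ * z := by rw [← hz]; linarith
          exact mul_left_cancel₀ hl₁z.ne' this
        · intro h6
          rw [h6, ← hz]; ring
      by_cases hzr : 1 ≤ z ∧ z ≤ N
      · obtain ⟨n, rfl⟩ := Int.eq_ofNat_of_zero_le (by linarith [hzr.1] : 0 ≤ z)
        have hn1 : 1 ≤ n := by exact_mod_cast hzr.1
        have hnN : n ≤ N := by exact_mod_cast hzr.2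
        rw [sum_eq_single n]
        · rw [if_pos ((hiff n).2 rfl)]
          have e1 : ((l₁ * n : ℕ) : ZMod (p ^ ν)) = ((l₂ * n₂ + D : ℤ) : ZMod (p ^ ν)) := by
            rw [hz]; push_cast; ring
          have e2 : ((l₂ * n₂ : ℕ) : ZMod (p ^ ν)) = ((l₂ * n₂ : ℤ) : ZMod (p ^ ν)) := by
            push_cast; ring
          unfold FF
          rw [e1, e2, ← gg_nat n hn1, ← gg_nat n₂ hn₂.1]
          simp
        · intro b _ hb
          rw [if_neg]
          rw [hiff]
          intro h6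
          exact hb (by exact_mod_cast h6)
        · intro h6
          exact absurd (mem_Icc.2 ⟨hn1, hnN⟩) h6
      · have hg0 : gg h (z : ℝ) = 0 := by
          rw [not_and_or, not_le, not_le] at hzr
          rcases hzr with h6 | h6
          · refine gg_low hx h1 ?_
            have h7 : z ≤ 0 := by omega
            have h8 : (z : ℝ) ≤ 0 := by exact_mod_cast h7
            linarith
          · refine gg_high hX1 h2 ?_
            have h8 : (N : ℝ) < (z : ℝ) := by exact_mod_cast h6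
            linarith
        rw [hg0, zero_mul]
        rw [sum_eq_zero]
        · simp
        · intro n₁ hn₁
          rw [mem_Icc] at hn₁
          rw [if_neg]
          rw [hiff]
          intro h6
          apply hzr
          rw [← h6]
          exact ⟨by exact_mod_cast hn₁.1, by exact_mod_cast hn₁.2⟩
    · have hWz : W n₂ = 0 := by
        simp only [hW]
        rw [if_neg hdiv]
      rw [hWz]
      refine sum_eq_zero fun n₁ _ => ?_
      rw [if_neg]
      intro h6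
      apply hdiv
      exact ⟨n₁, by linarith⟩
  rw [sum_comm, sum_congr rfl step1]
  -- second step
  have step2 : ∑ n ∈ Icc 1 N, W n = ∑ n ∈ range (l₁ * K), W n := by
    have hs1 : Icc 1 N ⊆ range (N + l₁ * K + 1) := by
      intro n hn
      rw [mem_Icc] at hn
      rw [mem_range]
      have : 0 ≤ l₁ * K := Nat.zero_le _
      omega
    have hs2 : range (l₁ * K) ⊆ range (N + l₁ * K + 1) := by
      intro n hn
      rw [mem_range] at hn ⊢
      omega
    rw [sum_subset hs1, sum_subset hs2]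
    · intro n _ hn
      rw [mem_range, not_lt] at hn
      apply hW0
      right
      have h6 : K ≤ n := le_trans (Nat.le_mul_of_pos_left K hl₁) hn
      have h7 : (K : ℝ) ≤ n := by exact_mod_cast h6
      linarith
    · intro n _ hn
      apply hW0
      rw [mem_Icc, not_and_or] at hn
      rcases hn with hn | hn
      · left; omega
      · right
        have h6 : N < n := not_le.1 hn
        have h7 : (N : ℝ) < n := by exact_mod_cast h6
        linarith
  rw [step2, sum_range_mul' l₁ K]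
  -- third step
  set G : ℕ → ℂ := fun k => ((gg h ((a + l₂ * k : ℤ) : ℝ) * gg h ((l₁ * k + r : ℕ) : ℝ) : ℝ) : ℂ) with hG
  set c : ℕ → ℂ := fun k => FF χ D (((l₁ : ℤ) * l₂) * k + l₂ * r) with hcc
  have step3 : ∀ k ∈ range K, ∑ r' ∈ range l₁, W (l₁ * k + r') = G k * c k := by
    intro k _
    rw [sum_eq_single r]
    · have e1 : (l₂ : ℤ) * ((l₁ * k + r : ℕ) : ℤ) + D = l₁ * (a + l₂ * k) := by
        push_cast
        linear_combination -ha
      simp only [hW, hG, hcc]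
      rw [e1, if_pos (Dvd.intro _ rfl), Int.mul_ediv_cancel_left _ hl₁z.ne']
      have e2 : (l₂ : ℤ) * ((l₁ * k + r : ℕ) : ℤ) = ((l₁ : ℤ) * l₂) * k + l₂ * r := by
        push_cast; ring
      rw [e2]
      push_cast
      ring
    · intro r' hr' hne
      rw [mem_range] at hr'
      simp only [hW]
      rw [if_neg]
      rintro ⟨z, hz⟩
      have h6 : (l₁ : ℤ) ∣ l₂ * ((r' : ℤ) - r) := by
        refine ⟨z - l₂ * k - a, ?_⟩
        push_cast at hz
        linear_combination hz + ha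
      have h7 : (l₁ : ℤ) ∣ (r' : ℤ) - r :=
        IsCoprime.dvd_of_dvd_mul_left (Nat.isCoprime_iff_coprime.2 hc) h6
      have h8 : (r' : ℤ) - r = 0 := by
        refine Int.eq_zero_of_abs_lt_dvd h7 ?_
        rw [abs_lt]
        constructor <;> omega
      exact hne (by omega)
    · intro h6
      exact absurd (mem_range.2 hr) h6
  rw [sum_congr rfl step3]
  -- the bounds
  set A1 : ℝ := Real.sqrt ((p : ℝ) ^ m * |(H : ℝ)| / (p : ℝ) ^ ν) with hA1
  set A2 : ℝ := Real.sqrt ((p : ℝ) ^ ν / (p : ℝ) ^ m) * (3 + Real.log ((p : ℝ) ^ ν)) with hA2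
  have hlog : 0 ≤ Real.log ((p : ℝ) ^ ν) := by
    apply Real.log_nonneg
    exact one_le_pow₀ (by exact_mod_cast hp.one_lt.le)
  have hA10 : 0 ≤ A1 := Real.sqrt_nonneg _
  have hA20 : 0 ≤ A2 := by positivity
  have hb : ¬ (p : ℤ) ∣ (l₁ : ℤ) * l₂ := by
    intro h6
    rcases hpZ.dvd_or_dvd h6 with h7 | h7
    · have h8 : p ∣ l₁ := by exact_mod_cast h7
      exact hp.one_lt.ne' (Nat.eq_one_of_dvd_coprimes hc₁ h8 dvd_rfl)
    · have h8 : p ∣ l₂ := by exact_mod_cast h7
      exact hp.one_lt.ne' (Nat.eq_one_of_dvd_coprimes hc₂ h8 dvd_rfl)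
  have hV : ∀ J ≤ K, ‖∑ k ∈ range J, c k‖ ≤ 2 * Real.sqrt p * (2 * X * A1 + A2) := by
    intro J hJ
    have h6 := incf hp hp2 hm h3 hχ hH hPH hb ((l₂ : ℤ) * r) J
    refine h6.trans ?_
    have h7 : (J : ℝ) ≤ 2 * X := le_trans (by exact_mod_cast hJ) hK2
    gcongr
  have hS : ∀ k < K, ‖G k‖ ≤ 1 / x := by
    intro k _
    simp only [hG]
    rw [Complex.norm_real, Real.norm_eq_abs, abs_mul]
    have h6 := gg_abs hx h0 h1 ((a + l₂ * k : ℤ) : ℝ)
    have h7 := gg_abs hx h0 h1 ((l₁ * k + r : ℕ) : ℝ)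
    have h8 : 1 / x = 1 / Real.sqrt x * (1 / Real.sqrt x) := by
      rw [div_mul_div_comm, one_mul, Real.mul_self_sqrt hx0.le]
    rw [h8]
    exact mul_le_mul h6 h7 (abs_nonneg _) (by positivity)
  have hZ0 : (1 : ℝ) ≤ Z := le_trans (by exact_mod_cast hl₁) hZ₁
  have hDD : ∀ k, k + 1 < K → ‖G (k + 1) - G k‖ ≤ 2 * Z * (1 + Λ) / x ^ 2 := by
    intro k _
    simp only [hG]
    rw [← Complex.ofReal_sub, Complex.norm_real, Real.norm_eq_abs]
    set u0 := gg h ((a + l₂ * k : ℤ) : ℝ) with hu0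
    set u1 := gg h ((a + l₂ * ((k + 1 : ℕ) : ℤ) : ℤ) : ℝ) with hu1
    set v0 := gg h ((l₁ * k + r : ℕ) : ℝ) with hv0
    set v1 := gg h ((l₁ * (k + 1) + r : ℕ) : ℝ) with hv1
    have hu : |u1 - u0| ≤ (1 + Λ) / (x * Real.sqrt x) * Z := by
      have h6 : ((a + l₂ * k : ℤ) : ℝ) ≤ ((a + l₂ * ((k + 1 : ℕ) : ℤ) : ℤ) : ℝ) := by
        push_cast
        have : (0 : ℝ) ≤ l₂ := Nat.cast_nonneg _
        linarith
      refine (gg_lip h0 hΛ hl hx h1 h6).trans ?_
      have h7 : (((a + l₂ * ((k + 1 : ℕ) : ℤ) : ℤ) : ℝ) - ((a + l₂ * k : ℤ) : ℝ)) = l₂ := by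
        push_cast; ring
      rw [h7]
      have h8 : 0 ≤ (1 + Λ) / (x * Real.sqrt x) := by positivity
      exact mul_le_mul_of_nonneg_left hZ₂ h8
    have hv : |v1 - v0| ≤ (1 + Λ) / (x * Real.sqrt x) * Z := by
      have h6 : ((l₁ * k + r : ℕ) : ℝ) ≤ ((l₁ * (k + 1) + r : ℕ) : ℝ) := by
        push_cast
        have : (0 : ℝ) ≤ l₁ := Nat.cast_nonneg _
        linarith
      refine (gg_lip h0 hΛ hl hx h1 h6).trans ?_
      have h7 : (((l₁ * (k + 1) + r : ℕ) : ℝ) - ((l₁ * k + r : ℕ) : ℝ)) = l₁ := by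
        push_cast; ring
      rw [h7]
      have h8 : 0 ≤ (1 + Λ) / (x * Real.sqrt x) := by positivity
      exact mul_le_mul_of_nonneg_left hZ₁ h8
    have hv1b : |v1| ≤ 1 / Real.sqrt x := gg_abs hx h0 h1 _
    have hu0b : |u0| ≤ 1 / Real.sqrt x := gg_abs hx h0 h1 _
    have e1 : u1 * v1 - u0 * v0 = (u1 - u0) * v1 + u0 * (v1 - v0) := by ring
    rw [e1]
    have hsx : 0 < Real.sqrt x := Real.sqrt_pos.2 hx0
    calc |(u1 - u0) * v1 + u0 * (v1 - v0)| ≤ |u1 - u0| * |v1| + |u0| * |v1 - v0| := by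
          rw [← abs_mul, ← abs_mul]; exact abs_add_le _ _
      _ ≤ ((1 + Λ) / (x * Real.sqrt x) * Z) * (1 / Real.sqrt x) +
          (1 / Real.sqrt x) * ((1 + Λ) / (x * Real.sqrt x) * Z) := by
          refine add_le_add (mul_le_mul hu hv1b (abs_nonneg _) ?_)
            (mul_le_mul hu0b hv (abs_nonneg _) (by positivity))
          positivity
      _ = 2 * Z * (1 + Λ) / (x * (Real.sqrt x * Real.sqrt x)) := by
          field_simp
          ring
      _ = _ := by
          rw [Real.mul_self_sqrt hx0.le]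
          ring_nf
  have key := abel_le K G c hV hS hDD (by positivity) (by positivity)
  refine key.trans ?_
  have hfin : 1 / x + (K : ℝ) * (2 * Z * (1 + Λ) / x ^ 2) ≤ 5 * Z * (1 + Λ) * (X / x ^ 2) := by
    have h6 : 1 / x ≤ X / x ^ 2 := by
      rw [div_le_div_iff₀ hx0 (by positivity)]
      nlinarith
    have h7 : X / x ^ 2 ≤ Z * (1 + Λ) * (X / x ^ 2) := by
      have h8 : 1 ≤ Z * (1 + Λ) := by nlinarith
      have h9 : 0 ≤ X / x ^ 2 := by positivity
      nlinarith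
    have h10 : (K : ℝ) * (2 * Z * (1 + Λ) / x ^ 2) ≤ 2 * X * (2 * Z * (1 + Λ) / x ^ 2) := by
      have : 0 ≤ 2 * Z * (1 + Λ) / x ^ 2 := by positivity
      exact mul_le_mul_of_nonneg_right hK2 this
    have h11 : 2 * X * (2 * Z * (1 + Λ) / x ^ 2) = 4 * (Z * (1 + Λ) * (X / x ^ 2)) := by ring
    linarith
  calc 2 * Real.sqrt p * (2 * X * A1 + A2) * (1 / x + (K : ℝ) * (2 * Z * (1 + Λ) / x ^ 2))
      ≤ 2 * Real.sqrt p * (2 * X * A1 + A2) * (5 * Z * (1 + Λ) * (X / x ^ 2)) :=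
        mul_le_mul_of_nonneg_left hfin (by positivity)
    _ = _ := by ring

end Pool.Agent.Run7.h462.PV
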